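import Mathlib

/-!
# The core of the maximal ideal of a localized standard graded algebra

For every infinite field `k` and every standard graded `k`-algebra `A`, with `R` the localization
of `A` at `A_+` and `m` its maximal ideal, `core m = (core A_+) R`, where both cores are the
intersections of all reductions (in `A` also the non-homogeneous ones).

Proof: a reduction `J` of an ideal `I` contains a power of `I`. So extension and contraction are
inverse bijections between the reductions of `A_+` and those of `m`, because all the ideals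
involved (also `J I ^ n` and `I ^ (n + 1)`) are `A_+`-primary, hence contracted. Therefore
`core A_+` is the contraction of `core m`, and every ideal of a localization is the extension of
its contraction.
-/

set_option autoImplicit false

namespace Pool.Agent.Results.MP_429122_al.CoreLocalizes

universe u v

/-- `J` is a reduction of the ideal `I`: `J ≤ I` and `J * I ^ n = I ^ (n + 1)` for some `n ≥ 0`. -/
def IsReduction {S : Type v} [CommRing S] (J I : Ideal S) : Prop :=
  J ≤ I ∧ ∃ n : ℕ, J * I ^ n = I ^ (n + 1)

/-- The core of `I`: the intersection of all reductions of `I` in `S`. -/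
def core {S : Type v} [CommRing S] (I : Ideal S) : Ideal S :=
  sInf {J : Ideal S | IsReduction J I}

/-- `A = ⨁ 𝒜 i` is a standard graded `k`-algebra: `𝒜 0 = k` and `A` is generated as a `k`-algebra
by finitely many elements of degree one. -/
structure IsStandardGraded {k : Type u} {A : Type v} [Field k] [CommRing A] [Algebra k A]
    (𝒜 : ℕ → Submodule k A) [GradedAlgebra 𝒜] : Prop where
  injective : Function.Injective (algebraMap k A)
  zero_eq : 𝒜 0 = LinearMap.range (Algebra.linearMap k A)
  gen : ∃ s : Finset A, (∀ a ∈ s, a ∈ 𝒜 1) ∧ Algebra.adjoin k (s : Set A) = ⊤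

section General

variable {A : Type v} [CommRing A] (M : Ideal A) [hM : M.IsMaximal]

/-- An ideal containing a power of the maximal ideal `M` is contracted from the localization. -/
theorem comap_map_of_pow_le {I : Ideal A} {n : ℕ} (h : M ^ n ≤ I) :
    (I.map (algebraMap A (Localization.AtPrime M))).comap
      (algebraMap A (Localization.AtPrime M)) = I := by
  refine le_antisymm ?_ Ideal.le_comap_map
  intro x hx
  rw [Ideal.mem_comap,
    IsLocalization.algebraMap_mem_map_algebraMap_iff M.primeCompl (Localization.AtPrime M)] at hx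
  obtain ⟨s, hs, hsx⟩ := hx
  have hs' : s ∉ M := hs
  obtain ⟨y, i, hi, hyi⟩ := hM.exists_inv hs'
  have hcop : IsCoprime M (Ideal.span {s}) := by
    rw [Ideal.isCoprime_iff_exists]
    exact ⟨i, hi, y * s, Ideal.mul_mem_left _ _ (Ideal.mem_span_singleton_self s),
      by rw [add_comm]; exact hyi⟩
  have hcop' : IsCoprime (M ^ n) (Ideal.span {s}) := hcop.pow_left
  rw [Ideal.isCoprime_iff_exists] at hcop'
  obtain ⟨a, ha, b, hb, hab⟩ := hcop'
  obtain ⟨c, rfl⟩ := Ideal.mem_span_singleton'.mp hb
  have h1 : x = a * x + c * (s * x) := by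
    calc x = (a + c * s) * x := by rw [hab, one_mul]
      _ = a * x + c * (s * x) := by ring
  rw [h1]
  exact I.add_mem (I.mul_mem_right _ (h ha)) (I.mul_mem_left _ hsx)

/-- Every ideal of the localization is the extension of its contraction. -/
theorem map_comap' (J : Ideal (Localization.AtPrime M)) :
    (J.comap (algebraMap A (Localization.AtPrime M))).map
      (algebraMap A (Localization.AtPrime M)) = J :=
  IsLocalization.map_under M.primeCompl (Localization.AtPrime M) J

theorem pow_le_of_isReduction {S : Type v} [CommRing S] {J I : Ideal S} (h : IsReduction J I) :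
    ∃ n, I ^ n ≤ J := by
  obtain ⟨-, n, hn⟩ := h
  exact ⟨n + 1, hn ▸ Ideal.mul_le_left⟩

/-- The extension of a reduction is a reduction of the extension. -/
theorem map_isReduction {J I : Ideal A} (h : IsReduction J I) :
    IsReduction (J.map (algebraMap A (Localization.AtPrime M)))
      (I.map (algebraMap A (Localization.AtPrime M))) := by
  obtain ⟨h1, n, hn⟩ := h
  refine ⟨Ideal.map_mono h1, n, ?_⟩
  rw [← Ideal.map_pow, ← Ideal.map_mul, hn, Ideal.map_pow]

/-- Let `I` contain a power of `M` and be contained in `M`. The contraction of a reduction of the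
extension of `I` is a reduction of `I`. -/
theorem comap_isReduction {I : Ideal A} {m : ℕ} (hm : M ^ m ≤ I)
    {J : Ideal (Localization.AtPrime M)}
    (h : IsReduction J (I.map (algebraMap A (Localization.AtPrime M)))) :
    IsReduction (J.comap (algebraMap A (Localization.AtPrime M))) I := by
  obtain ⟨h1, n, hn⟩ := h
  have hle : J.comap (algebraMap A (Localization.AtPrime M)) ≤ I := by
    rw [← comap_map_of_pow_le M hm]
    exact Ideal.comap_mono h1
  refine ⟨hle, n, ?_⟩
  -- `J` contains a power of the extension of `I`
  have h2 : (I.map (algebraMap A (Localization.AtPrime M))) ^ (n + 1) ≤ J :=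
    hn ▸ Ideal.mul_le_left
  have h3 : I ^ (n + 1) ≤ J.comap (algebraMap A (Localization.AtPrime M)) := by
    rw [← Ideal.map_le_iff_le_comap, Ideal.map_pow]
    exact h2
  have h4 : M ^ (m * (n + 1)) ≤ I ^ (n + 1) := by
    rw [pow_mul]
    exact Ideal.pow_right_mono hm _
  have h5 : M ^ (m * (n + 1) + m * n) ≤
      J.comap (algebraMap A (Localization.AtPrime M)) * I ^ n := by
    rw [pow_add]
    refine Ideal.mul_mono (h4.trans h3) ?_
    rw [pow_mul]
    exact Ideal.pow_right_mono hm _
  rw [← comap_map_of_pow_le M h5, ← comap_map_of_pow_le M h4, Ideal.map_mul, map_comap',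
    Ideal.map_pow, hn, ← Ideal.map_pow]

/-- For an `M`-primary ideal `I` of a commutative ring, the core of `I` is the contraction of the
core of its extension. -/
theorem core_eq_comap {I : Ideal A} {m : ℕ} (hm : M ^ m ≤ I) :
    core I = (core (I.map (algebraMap A (Localization.AtPrime M)))).comap
      (algebraMap A (Localization.AtPrime M)) := by
  apply le_antisymm
  · rw [← Ideal.map_le_iff_le_comap]
    refine le_sInf ?_
    intro J hJ
    rw [Ideal.map_le_iff_le_comap]
    exact sInf_le (comap_isReduction M hm hJ)
  · refine le_sInf ?_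
    intro J hJ
    obtain ⟨n, hn⟩ := pow_le_of_isReduction hJ
    have h1 : M ^ (m * n) ≤ J := by
      rw [pow_mul]
      exact (Ideal.pow_right_mono hm n).trans hn
    rw [← comap_map_of_pow_le M h1]
    exact Ideal.comap_mono (sInf_le (map_isReduction M hJ))

/-- For an `M`-primary ideal the core commutes with the localization at `M`. -/
theorem core_map {I : Ideal A} {m : ℕ} (hm : M ^ m ≤ I) :
    core (I.map (algebraMap A (Localization.AtPrime M))) =
      (core I).map (algebraMap A (Localization.AtPrime M)) := by
  rw [core_eq_comap M hm, map_comap']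

/-- The case of the maximal ideal itself. -/
theorem core_maximalIdeal :
    core (IsLocalRing.maximalIdeal (Localization.AtPrime M)) =
      (core M).map (algebraMap A (Localization.AtPrime M)) := by
  have h1 : M ^ 1 ≤ M := by rw [pow_one]
  rw [← core_map M h1, Localization.AtPrime.map_eq_maximalIdeal]

end General

/-- The irrelevant ideal of a standard graded algebra over a field is a maximal ideal. -/
theorem irrelevant_isMaximal {k : Type u} {A : Type v} [Field k] [CommRing A] [Algebra k A]
    (𝒜 : ℕ → Submodule k A) [GradedAlgebra 𝒜] (h : IsStandardGraded 𝒜) :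
    (HomogeneousIdeal.irrelevant 𝒜).toIdeal.IsMaximal := by
  have hmem : ∀ a : A, a ∈ (HomogeneousIdeal.irrelevant 𝒜).toIdeal ↔
      GradedRing.proj 𝒜 0 a = 0 := fun a => HomogeneousIdeal.mem_irrelevant_iff 𝒜 a
  rw [Ideal.isMaximal_iff]
  constructor
  · rw [hmem]
    intro h1
    have h2 : GradedRing.proj 𝒜 0 (1 : A) = 1 := by
      rw [GradedRing.proj_apply]
      exact DirectSum.decompose_of_mem_same 𝒜 SetLike.GradedOne.one_mem
    rw [h2] at h1
    have h3 : algebraMap k A 1 = algebraMap k A 0 := by rw [map_one, map_zero, h1]
    exact one_ne_zero (h.injective h3)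
  · intro J x hJ hx hxJ
    have h0 : GradedRing.proj 𝒜 0 x ∈ 𝒜 0 := by
      rw [GradedRing.proj_apply]
      exact (DirectSum.decompose 𝒜 x 0).2
    rw [h.zero_eq] at h0
    obtain ⟨c, hc⟩ := h0
    have hc' : algebraMap k A c = GradedRing.proj 𝒜 0 x := hc
    have hc0 : c ≠ 0 := by
      rintro rfl
      rw [map_zero] at hc'
      exact hx ((hmem x).mpr hc'.symm)
    have hmem2 : x - algebraMap k A c ∈ (HomogeneousIdeal.irrelevant 𝒜).toIdeal := by
      rw [hmem, map_sub, hc', sub_eq_zero]
      rw [GradedRing.proj_apply, GradedRing.proj_apply]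
      exact (DirectSum.decompose_of_mem_same 𝒜 (DirectSum.decompose 𝒜 x 0).2).symm
    have h4 : algebraMap k A c ∈ J := by
      have := J.sub_mem hxJ (hJ hmem2)
      rwa [sub_sub_cancel] at this
    have h5 := J.mul_mem_left (algebraMap k A c⁻¹) h4
    rwa [← map_mul, inv_mul_cancel₀ hc0, map_one] at h5

/-- **Positive answer to Q1.** Let `k` be an infinite field and `A` a standard graded `k`-algebra.
Then `A_+` is a maximal ideal, and for the localization `R` of `A` at `A_+` with maximal ideal `m`
one has `core m = (core A_+) R`; moreover `core A_+` is the contraction of `core m`. -/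
theorem result (k : Type u) [Field k] [Infinite k] (A : Type v) [CommRing A] [Algebra k A]
    (𝒜 : ℕ → Submodule k A) [GradedAlgebra 𝒜] (h : IsStandardGraded 𝒜) :
    (HomogeneousIdeal.irrelevant 𝒜).toIdeal.IsMaximal ∧
    ∀ [(HomogeneousIdeal.irrelevant 𝒜).toIdeal.IsPrime],
      core (IsLocalRing.maximalIdeal
          (Localization.AtPrime (HomogeneousIdeal.irrelevant 𝒜).toIdeal)) =
        (core (HomogeneousIdeal.irrelevant 𝒜).toIdeal).map
          (algebraMap A (Localization.AtPrime (HomogeneousIdeal.irrelevant 𝒜).toIdeal)) ∧
      core (HomogeneousIdeal.irrelevant 𝒜).toIdeal =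
        (core (IsLocalRing.maximalIdeal
          (Localization.AtPrime (HomogeneousIdeal.irrelevant 𝒜).toIdeal))).comap
          (algebraMap A (Localization.AtPrime (HomogeneousIdeal.irrelevant 𝒜).toIdeal)) := by
  have := irrelevant_isMaximal 𝒜 h
  refine ⟨this, ?_⟩
  intro _
  refine ⟨core_maximalIdeal _, ?_⟩
  have h1 : (HomogeneousIdeal.irrelevant 𝒜).toIdeal ^ 1 ≤
      (HomogeneousIdeal.irrelevant 𝒜).toIdeal := by rw [pow_one]
  have h2 := core_eq_comap _ h1
  rwa [Localization.AtPrime.map_eq_maximalIdeal] at h2

end Pool.Agent.Results.MP_429122_al.CoreLocalizes
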